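import Pool.Agent.FC640.CS.Main

/-! # The filling volume inequality for fillings with conformally round slices

For `n ≥ 2` let `M` be the ball of dimension `2 n` with the metric `ds² + b(s,x)² g_round`, where
`s ∈ [0,R)` is the distance from the boundary, `x` is in the unit sphere of dimension `2 n - 1`, and
`b` is continuous and positive (no symmetry is assumed), the ball being closed by a point at `s = R`.
If `M` is nonshortcutting, its volume is at least the volume of the round hemisphere. -/

set_option autoImplicit false

open Real Set MeasureTheory Metric ENNReal

namespace Pool.Agent.Results.MP_aeade1_gt.ConformalSlices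

open Pool.Agent.FC640.CS

/-- Let `n ≥ 2` and let `b` define the metric `ds² + b(s,x)² g_round` on `[0,R) × S^(2n-1)`, closed
by a point at `s = R`. If no curve joins two boundary points faster than along the round sphere, then
the volume is at least `vol(S^(2n-1)) ∫₀^{π/2} cos^(2n-1) = vol(S^(2n)) / 2`, the volume of the round
hemisphere. -/
theorem result {n : ℕ} (hn : 2 ≤ n) {R : ℝ} {b : ℝ × Sph n → ℝ} (hM : IsMetric n R b)
    (hS : NonShort n R b) :
    (σ n) univ * ENNReal.ofReal (∫ θ in (0 : ℝ)..(π / 2), Real.cos θ ^ (2 * n - 1)) ≤
      vol n R b :=
  main hn hM hS

end Pool.Agent.Results.MP_aeade1_gt.ConformalSlices
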