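import Pool.Agent.TH172.FV.Crit

/-!
# Energy, distance functions and volume of all fillings of the round sphere

`n = d + 1`, `H` is the volume of the round hemisphere of dimension `n`.  Let `M` be a compact
nonshortcutting filling of `S^d`, of any topology.  For independent Gaussian vectors `v₁, …, v_d` the
common zero set of the functions `⟪w, vᵢ⟫` contains an arc of length at least `π` between two antipodal
points of the boundary (a thin tube around it is mapped onto a box by `(g, ⟪w, v₁⟫, …, ⟪w, v_d⟫)`,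
`g` an extension of the distance function); the average of the volume of the tube over the `vᵢ` is
bounded by the integral of `(|dw|²/n)^(d/2)`.
-/

set_option autoImplicit false

open MeasureTheory InnerProductGeometry

namespace Pool.Agent.Results.MP_aeade1_gt.EnergyVolume

open Pool.Agent.H241R3.FV Pool.Agent.TH172.FV

/-- The volume of the round hemisphere of dimension `d + 1`: half of the total mass of the surface
measure of the unit sphere of `ℝ^(d+2)`. -/
noncomputable def hemi (d : ℕ) : ENNReal :=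
  (volume : Measure (EuclideanSpace ℝ (Fin (d + 2)))).toSphere Set.univ / 2

/-- `w : M → ℝ^N` is `K`-Lipschitz, has values outside the open unit ball and is the isometric linear
embedding `J` on the boundary sphere. -/
def Admissible {d : ℕ} {M : Type} [MetricSpace M] (S : Fill d M) {N : ℕ}
    (J : E (d + 1) →ₗᵢ[ℝ] E N) (w : M → E N) (K : NNReal) : Prop :=
  LipschitzWith K w ∧ (∀ q, 1 ≤ ‖w q‖) ∧ ∀ x, w (S.bd x) = J x

/-- The points `x k` of the sphere `S^d` with the weights `c k ≥ 0` form a tight frame. -/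
def TightFrame {d m : ℕ} (c : Fin m → ℝ) (x : Fin m → Sph (d + 1)) : Prop :=
  (∀ k, 0 ≤ c k) ∧ ∀ y : E (d + 1), ∑ k, c k * (inner ℝ (x k : E (d + 1)) y) ^ 2 = ‖y‖ ^ 2

/-- `f k` is a `1`-Lipschitz extension to `M` of the distance function of the sphere from `x k`, and
`b` is a `1`-Lipschitz function which vanishes on the boundary. -/
def Extensions {d : ℕ} {M : Type} [MetricSpace M] (S : Fill d M) {m : ℕ}
    (x : Fin m → Sph (d + 1)) (f : Fin m → M → ℝ) (b : M → ℝ) : Prop :=
  (∀ k, LipschitzWith 1 (f k)) ∧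
  (∀ k y, f k (S.bd y) = angle (x k : E (d + 1)) (y : E (d + 1))) ∧
  LipschitzWith 1 b ∧ ∀ y, b (S.bd y) = 0

/-- The function `sin² b + ∑ c_k cos² f_k`. -/
noncomputable def squares {M : Type} {m : ℕ} (c : Fin m → ℝ) (f : Fin m → M → ℝ) (b : M → ℝ)
    (q : M) : ℝ :=
  Real.sin (b q) ^ 2 + ∑ k, c k * Real.cos (f k q) ^ 2

/-- Let `M` be a compact nonshortcutting filling of `S^d`, `n = d + 1`, `H = vol(S^n)/2`.
(1) For every Lipschitz map `w : M → ℝ^N` with `|w| ≥ 1` which is an isometric linear embedding on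
the boundary sphere: `∫ (|dw|²/n)^(d/2) ≥ H`; `vol(M) · (∫ (|dw|²/n)^(n/2))^d ≥ H^n`; if the
(conformally invariant) energy `∫ (|dw|²/n)^(n/2)` is at most `H` then `vol(M) ≥ H`; if `w` is
`K`-Lipschitz then `K^d vol(M) ≥ H`.
(2) Let `c k ≥ 0` and the points `x k` of `S^d` form a tight frame (`∑ c_k ⟨x_k, y⟩² = |y|²`), let
`f k` be `1`-Lipschitz functions on `M` which extend the distance functions from `x k` and `b` a
`1`-Lipschitz function vanishing on the boundary. If `sin² b + ∑ c_k cos² f_k ≥ ρ > 0` on `M` then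
`H ≤ ((n + 1 - ρ)/(n ρ))^(d/2) vol(M)`; if `sin² b + ∑ c_k cos² f_k ≥ 1` on `M` then
`vol(M) ≥ H`. -/
theorem result (d : ℕ) (hd : 1 ≤ d) (M : Type) [MetricSpace M] [CompactSpace M] (S : Fill d M)
    (hS : S.NonShort) (htop : S.Triangulated ∨ S.NoRetraction) :
    (∀ (N : ℕ) (J : E (d + 1) →ₗᵢ[ℝ] E N) (w : M → E N) (K : NNReal), Admissible S J w K →
      hemi d ≤ energy S w d ∧
      hemi d ^ (d + 1) ≤ S.vol * energy S w (d + 1) ^ d ∧
      (energy S w (d + 1) ≤ hemi d → hemi d ≤ S.vol) ∧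
      hemi d ≤ (K : ENNReal) ^ d * S.vol) ∧
    (∀ (m : ℕ) (c : Fin m → ℝ) (x : Fin m → Sph (d + 1)) (f : Fin m → M → ℝ) (b : M → ℝ),
      TightFrame c x → Extensions S x f b →
      (∀ ρ : ℝ, 0 < ρ → (∀ q, ρ ≤ squares c f b q) →
        hemi d ≤ ENNReal.ofReal (((d + 2 - ρ) / ((d + 1) * ρ)) ^ ((d : ℝ) / 2)) * S.vol) ∧
      ((∀ q, 1 ≤ squares c f b q) → hemi d ≤ S.vol)) := by
  refine ⟨fun _ J w K hw => energy_all hd S hS htop J w hw.2.1 K hw.1 hw.2.2,
    fun m c x f b hcx hf => ?_⟩
  have key := frame_vol hd S hS htop m c hcx.1 x hcx.2 f hf.1 hf.2.1 b hf.2.2.1 hf.2.2.2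
  refine ⟨key, fun hR => ?_⟩
  have h := key 1 one_pos hR
  have e : (((d : ℝ) + 2 - 1) / ((d + 1) * 1)) ^ ((d : ℝ) / 2) = 1 := by
    have : ((d : ℝ) + 2 - 1) / ((d + 1) * 1) = 1 := by
      rw [div_eq_one_iff_eq (by positivity)]
      ring
    rw [this, Real.one_rpow]
  rw [e, ENNReal.ofReal_one, one_mul] at h
  exact h

end Pool.Agent.Results.MP_aeade1_gt.EnergyVolume
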