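import Pool.Agent.TH253.FV.Fin

/-!
# Nine twentieths of the hemisphere in Gromov's filling volume inequality for round spheres

The set-up is that of `Pool.Agent.W716.FV` (constant `1/5`): for a filling `M` of `S^d`, `n = d + 1`,
the maps `T_η = E[u_{g+κη} g] - η` and `S_η = (R²+|η|²)/6 - E[κ u_{g+κη}]` send the cone over `M` to
`ℝ^n × ℝ`, cover the region above the paraboloid `s = |τ|²/6`, and have Jacobian at most
`3^(-1/2) exp(S_η - 1/2)`; for a fixed point of the cone the derivative of `η ↦ T_η` is `A - 1` with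
`A` symmetric.

Four new estimates give the new constant.

(1) The Hilbert-Schmidt norm of `A` satisfies `|A|² ≤ 4 S_η / 3`.

(2) All eigenvalues of `A` are at most `S_η`: by a second integration by parts
`⟨A v, v⟩ = E[κ u_{g+κη} (⟨g, v⟩² - |v|²)]`, and `E[κ u_{g+κη} | g] ≤ R |η| / 3 ≤ (R² + |η|²) / 6`.

(3) Hence `|det (A - 1)| exp(tr A) ≥ exp(4 (log(1 - s) + s) / (3 s))`, `s = S_η`, which is at least
the polynomial `1 - 2 s / 3 - 2 s² / 9 - s³ / 7` for `s ≤ 17/25`.

(4) `T` is injective on the set `{S_η ≤ 17/25}` (instead of `{S_η ≤ 27/200}`).  For two Gaussians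
with centres at distance `δ` and a vector field `V` with means `W₁`, `W₂` and second moments `Y₁`,
`Y₂` about `η₁`, `η₂`, `a = |η₂ - η₁|`, one has for `t ≥ 0`
`(t - a) |W₂ - W₁| ≤ Y₁ + Y₂ - a²/2 + t²/2 (1 - exp(-δ²/4))`.  If `T_η₁ = T_η₂` this gives
`p (H + W²/G) ≤ 8 max S` with `p = a²/4`, `H = E[(1+κ²) ω]`, `W = E ω`, `G = E[(1-ω)/(1+κ²)]`,
`ω = exp(-pκ²)`; but `W² (3+2p)` and `(5/6-G)² (5+2p)` are nondecreasing in `p` (Stein identity for
`κ`), and `p (H + W²/G) > 136/25` for all `p > 0` follows.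
-/

set_option autoImplicit false

open MeasureTheory

namespace Pool.Agent.Results.MP_aeade1_gt.NineTwentieths

open Pool.Agent.H241R3.FV

/-- For every `d ≥ 1`, every compact triangulated nonshortcutting filling of the round sphere `S^d`,
orientable or not and of any topology, has volume at least nine twentieths of the volume
`vol(S^(d+1)) / 2` of the round hemisphere. -/
theorem result (d : ℕ) (hd : 1 ≤ d) (M : Type) [MetricSpace M] [CompactSpace M] (S : Fill d M)
    (hS : S.NonShort) (hT : S.Triangulated) :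
    ENNReal.ofReal (9 / 20) *
      ((volume : Measure (EuclideanSpace ℝ (Fin (d + 2)))).toSphere Set.univ / 2) ≤ S.vol := by
  have h := Pool.Agent.TH253.FV.final d hd M S hS hT
  refine le_trans (le_of_eq ?_) h
  rw [ENNReal.div_eq_inv_mul, ← mul_assoc]
  congr 1
  rw [show (9 / 40 : ℝ) = 9 / 20 * (1 / 2) by norm_num, ENNReal.ofReal_mul (by norm_num)]
  congr 1
  rw [one_div, ENNReal.ofReal_inv_of_pos (by norm_num)]
  norm_num

end Pool.Agent.Results.MP_aeade1_gt.NineTwentieths
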