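import Pool.Agent.TH599.SU.Hemi

/-!
# The filling constants of the round spheres do not increase with the dimension

Let `c_d` be the infimum of `vol F / vol H^(d+1)` over the nonshortcutting chain fillings `F` of the
round sphere `S^d`, where `H^(d+1)` is the round hemisphere. The spherical suspension of a filling of
`S^d` is a filling of `S^(d+1)` with the same quotient, so `1 ≥ c_1 ≥ c_2 ≥ …`. Hence `c_d = 1` in
one dimension implies it in all lower dimensions, and `c_d = 1` for all `d` if and only if
`c_d → 1`.
-/

set_option autoImplicit false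

open Filter Topology

namespace Pool.Agent.Results.MP_aeade1_gt.SuspensionMonotone

open Pool.Agent.TH599.SU

/-- the filling constant of the round sphere of dimension `d`: the infimum of the quotients of the
volumes of the nonshortcutting chain fillings by the volume of the hemisphere -/
noncomputable def fillConst (d : ℕ) : ENNReal :=
  ⨅ F : Filling d, ENNReal.ofReal (F.vol / hemi (d + 1))

lemma fc_mono {d e : ℕ} (hd : 1 ≤ d) (hde : d ≤ e) : fillConst e ≤ fillConst d := by
  refine le_iInf fun F => ?_
  obtain ⟨F', hF'⟩ := exists_up hd hde F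
  rw [← hF']
  exact iInf_le _ F'

lemma fc_le_one {d : ℕ} (hd : 1 ≤ d) : fillConst d ≤ 1 := by
  obtain ⟨d', rfl⟩ : ∃ d', d = d' + 1 := ⟨d - 1, by omega⟩
  obtain ⟨F, hF⟩ := exists_hemi d'
  refine (iInf_le _ F).trans ?_
  rw [hF, div_self (hemi_pos _).ne', ENNReal.ofReal_one]

/-- The filling constants of the round spheres satisfy `1 ≥ c_1 ≥ c_2 ≥ …`, and they are all equal
to `1` if and only if they tend to `1`. -/
theorem result :
    fillConst 1 ≤ 1 ∧ (∀ d : ℕ, 1 ≤ d → fillConst (d + 1) ≤ fillConst d) ∧
    ((∀ d : ℕ, 1 ≤ d → fillConst d = 1) ↔ Tendsto fillConst atTop (𝓝 1)) := by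
  refine ⟨fc_le_one le_rfl, fun d hd => fc_mono hd (Nat.le_succ d), ?_, ?_⟩
  · intro h
    refine tendsto_const_nhds.congr' ?_
    filter_upwards [eventually_ge_atTop 1] with d hd
    exact (h d hd).symm
  · intro h d hd
    refine le_antisymm (fc_le_one hd) (le_of_tendsto h ?_)
    filter_upwards [eventually_ge_atTop d] with e he
    exact fc_mono hd he

end Pool.Agent.Results.MP_aeade1_gt.SuspensionMonotone
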